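import Mathlib
import Pool.Agent.H44.P4.Defs

set_option autoImplicit false

/-!
The relation of a rooted critical code has no induced path on four vertices (MP_a46c6f_co, note 7046):
second, independent version of the abstract part.
-/

namespace Pool.Agent.H62.Ind

open Pool.Agent.H44.P4

variable {V : Type} [Fintype V] [DecidableEq V] {A : V → V → Prop}

/-- `D` is disconnected or its complement is -/
def Split (A : V → V → Prop) (D : Finset V) : Prop :=
  ∃ K : Finset V, (∃ u, u ∈ K) ∧ K ⊆ D ∧ (∃ v, v ∈ D ∧ v ∉ K) ∧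
    ((∀ u ∈ K, ∀ v ∈ D, v ∉ K → ¬ A u v) ∨ (∀ u ∈ K, ∀ v ∈ D, v ∉ K → A u v))

omit [Fintype V] in
theorem split_aux (sym : ∀ x y, A x y → A y x) {D K₁ K₂ : Finset V} {w : V}
    (hw : w ∈ D) (hfree : Free A D) (h1 : K₁ ⊆ D) (h2 : K₂ ⊆ D)
    (hw1 : w ∉ K₁) (hw2 : w ∉ K₂) (hcov : ∀ v ∈ D, v = w ∨ v ∈ K₁ ∨ v ∈ K₂)
    (hn2 : ∃ u, u ∈ K₂) (hno : ∀ u ∈ K₁, ∀ v ∈ K₂, ¬ A u v)
    {u₀ : V} (hu₀ : u₀ ∈ K₁) (hA : ¬ A w u₀) : Split A D := by
  classical
  by_cases hk : ∃ k ∈ K₂, A w k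
  · obtain ⟨k, hk, hwk⟩ := hk
    refine ⟨K₁.filter fun u => ¬ A w u, ⟨u₀, by simp [hu₀, hA]⟩,
      fun u hu => h1 (Finset.mem_filter.1 hu).1, ⟨w, hw, by simp [hw1]⟩, Or.inl ?_⟩
    intro u hu v hv hvn huv
    rw [Finset.mem_filter] at hu hvn
    rcases hcov v hv with rfl | h | h
    · exact hu.2 (sym _ _ huv)
    · have hwv : A w v := by
        by_contra hc
        exact hvn ⟨h, hc⟩
      exact hfree k (h2 hk) w hw v hv u (h1 hu.1) ⟨sym _ _ hwk, hwv, sym _ _ huv,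
        fun h' => hno v h k hk (sym _ _ h'), fun h' => hno u hu.1 k hk (sym _ _ h'), hu.2⟩
    · exact hno u hu.1 v h huv
  · push Not at hk
    refine ⟨K₂, hn2, h2, ⟨w, hw, hw2⟩, Or.inl ?_⟩
    intro u hu v hv hvn huv
    rcases hcov v hv with rfl | h | h
    · exact hk u hu (sym _ _ huv)
    · exact hno v h u hu (sym _ _ huv)
    · exact hvn h

omit [Fintype V] [DecidableEq V] in
theorem free_compl (sym : ∀ x y, A x y → A y x) {D : Finset V} (h : Free A D) :
    Free (fun x y => ¬ A x y) D := by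
  rintro a ha b hb c hc d hd ⟨h1, h2, h3, h4, h5, h6⟩
  exact h c hc a ha d hd b hb ⟨sym _ _ (not_not.1 h4), not_not.1 h5, sym _ _ (not_not.1 h6), h3,
    fun h' => h2 (sym _ _ h'), h1⟩

omit [Fintype V] in
/-- Seinsche -/
theorem split_of_free (sym : ∀ x y, A x y → A y x) : ∀ (n : ℕ) (D : Finset V), D.card = n → 2 ≤ n →
    Free A D → Split A D := by
  classical
  intro n
  induction n with
  | zero => intro D _ h; omega
  | succ n ih =>
    intro D hD hn hfree
    have hne : D.Nonempty := Finset.card_pos.1 (by omega)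
    obtain ⟨w, hw⟩ := hne
    have hcard : (D.erase w).card = n := by
      rw [Finset.card_erase_of_mem hw, hD]; rfl
    have hsub : D.erase w ⊆ D := Finset.erase_subset _ _
    have hcov0 : ∀ v ∈ D, v = w ∨ v ∈ D.erase w := by
      intro v hv
      by_cases h : v = w
      · exact Or.inl h
      · exact Or.inr (Finset.mem_erase.2 ⟨h, hv⟩)
    by_cases hall : ∀ u ∈ D.erase w, A w u
    · refine ⟨{w}, ⟨w, by simp⟩, by simpa using hw, ?_, Or.inr ?_⟩
      · have : (D.erase w).Nonempty := Finset.card_pos.1 (by omega)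
        obtain ⟨v, hv⟩ := this
        exact ⟨v, hsub hv, by simpa using (Finset.mem_erase.1 hv).1⟩
      · intro u hu v hv hvn
        rw [Finset.mem_singleton] at hu hvn
        rw [hu]
        exact hall v (Finset.mem_erase.2 ⟨hvn, hv⟩)
    by_cases hnone : ∀ u ∈ D.erase w, ¬ A w u
    · refine ⟨{w}, ⟨w, by simp⟩, by simpa using hw, ?_, Or.inl ?_⟩
      · have : (D.erase w).Nonempty := Finset.card_pos.1 (by omega)
        obtain ⟨v, hv⟩ := this
        exact ⟨v, hsub hv, by simpa using (Finset.mem_erase.1 hv).1⟩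
      · intro u hu v hv hvn
        rw [Finset.mem_singleton] at hu hvn
        rw [hu]
        exact hnone v (Finset.mem_erase.2 ⟨hvn, hv⟩)
    push Not at hall hnone
    obtain ⟨u₀, hu₀, hA₀⟩ := hall
    obtain ⟨u₁, hu₁, hA₁⟩ := hnone
    have hn2 : 2 ≤ n := by
      rw [← hcard]
      have hne : u₀ ≠ u₁ := by
        rintro rfl; exact hA₀ hA₁
      have : ({u₀, u₁} : Finset V) ⊆ D.erase w := by
        intro x hx
        simp only [Finset.mem_insert, Finset.mem_singleton] at hx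
        rcases hx with rfl | rfl <;> assumption
      have h2 := Finset.card_le_card this
      rwa [Finset.card_pair hne] at h2
    have hfree' : Free A (D.erase w) := fun a ha b hb c hc d hd =>
      hfree a (hsub ha) b (hsub hb) c (hsub hc) d (hsub hd)
    obtain ⟨K, ⟨u, hu⟩, hK, ⟨v, hv, hvK⟩, h⟩ := ih _ hcard hn2 hfree'
    set K' := (D.erase w).filter fun v => v ∉ K with hK'
    have memK' : ∀ v, v ∈ K' ↔ v ∈ D.erase w ∧ v ∉ K := fun v => by rw [hK', Finset.mem_filter]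
    have hwK : w ∉ K := fun h => (Finset.mem_erase.1 (hK h)).1 rfl
    have hwK' : w ∉ K' := fun h => (Finset.mem_erase.1 ((memK' w).1 h).1).1 rfl
    have hcov : ∀ v ∈ D, v = w ∨ v ∈ K ∨ v ∈ K' := by
      intro v hv
      rcases hcov0 v hv with h | h
      · exact Or.inl h
      · by_cases h' : v ∈ K
        · exact Or.inr (Or.inl h')
        · exact Or.inr (Or.inr ((memK' v).2 ⟨h, h'⟩))
    have hKD : K ⊆ D := fun v hv => hsub (hK hv)
    have hKD' : K' ⊆ D := fun v hv => hsub ((memK' v).1 hv).1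
    have hvK' : v ∈ K' := (memK' v).2 ⟨hv, hvK⟩
    rcases h with h | h
    · -- no edges
      have hno : ∀ u ∈ K, ∀ v ∈ K', ¬ A u v := fun u hu v hv =>
        h u hu v ((memK' v).1 hv).1 ((memK' v).1 hv).2
      by_cases h0 : u₀ ∈ K
      · exact split_aux sym hw hfree hKD hKD' hwK hwK' hcov ⟨v, hvK'⟩ hno h0 hA₀
      · refine split_aux sym hw hfree hKD' hKD hwK' hwK (fun v hv => ?_) ⟨u, hu⟩
          (fun u hu v hv h' => hno v hv u hu (sym _ _ h')) ((memK' u₀).2 ⟨hu₀, h0⟩) hA₀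
        rcases hcov v hv with h' | h' | h'
        · exact Or.inl h'
        · exact Or.inr (Or.inr h')
        · exact Or.inr (Or.inl h')
    · -- all edges: complement
      have sym' : ∀ x y, ¬ A x y → ¬ A y x := fun x y h h' => h (sym _ _ h')
      have hno : ∀ u ∈ K, ∀ v ∈ K', ¬ ¬ A u v := fun u hu v hv =>
        not_not.2 (h u hu v ((memK' v).1 hv).1 ((memK' v).1 hv).2)
      have hfc := free_compl sym hfree
      have key : Split (fun x y => ¬ A x y) D := by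
        by_cases h0 : u₁ ∈ K
        · exact split_aux (A := fun x y => ¬ A x y) sym' hw hfc hKD hKD' hwK hwK' hcov ⟨v, hvK'⟩
            hno h0 (not_not.2 hA₁)
        · refine split_aux (A := fun x y => ¬ A x y) sym' hw hfc hKD' hKD hwK' hwK
            (fun v hv => ?_) ⟨u, hu⟩
            (fun u hu v hv h' => hno v hv u hu (sym' _ _ h')) ((memK' u₁).2 ⟨hu₁, h0⟩)
            (not_not.2 hA₁)
          rcases hcov v hv with h' | h' | h'
          · exact Or.inl h'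
          · exact Or.inr (Or.inr h')
          · exact Or.inr (Or.inl h')
      obtain ⟨Q, h1, h2, h3, h4⟩ := key
      refine ⟨Q, h1, h2, h3, ?_⟩
      rcases h4 with h4 | h4
      · exact Or.inr fun u hu v hv hvn => not_not.1 (h4 u hu v hv hvn)
      · exact Or.inl h4

/-- an isolated vertex (without loop) or a full vertex (with loop) -/
def IoF (A : V → V → Prop) (D : Finset V) : Prop :=
  (∃ x ∈ D, ∀ y ∈ D, ¬ A x y) ∨ ∃ x ∈ D, ∀ y ∈ D, A x y

omit [Fintype V] in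
theorem iof_step (sym : ∀ x y, A x y → A y x) {D K : Finset V} (hfree : Free A D) (hp : Pairs A D)
    (hK : K ⊆ D) (hne : ∃ u, u ∈ K) (hne' : ∃ v, v ∈ D ∧ v ∉ K)
    (hno : ∀ u ∈ K, ∀ v ∈ D, v ∉ K → ¬ A u v)
    (ih : ∀ E : Finset V, E ⊂ D → E.Nonempty → Free A E → Pairs A E → IoF A E) :
    ∃ x ∈ D, ∀ y ∈ D, ¬ A x y := by
  classical
  by_contra hiso
  push Not at hiso
  set K' := D.filter fun v => v ∉ K with hK'
  have memK' : ∀ v, v ∈ K' ↔ v ∈ D ∧ v ∉ K := fun v => by rw [hK', Finset.mem_filter]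
  have hKD' : K' ⊆ D := fun v hv => ((memK' v).1 hv).1
  -- a part inherits the midpoints
  have inh : ∀ E F : Finset V, E ⊆ D → (∀ v ∈ D, v ∈ E ∨ v ∈ F) → F ⊆ D →
      (∀ u ∈ E, ∀ v ∈ F, ¬ A u v) → Pairs A E := by
    intro E F hE hEF hF hn u hu v hv h1 h2
    obtain ⟨g, hg, hm⟩ := hp u (hE hu) v (hE hv) h1 h2
    by_cases hgE : g ∈ E
    · refine ⟨g, hgE, hm.1, hm.2.1, hm.2.2.1, fun y hy => hm.2.2.2 y (hE hy)⟩
    · exfalso
      have hgF : g ∈ F := (hEF g hg).resolve_left hgE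
      have hgu : ¬ A g u := fun h => hn u hu g hgF (sym _ _ h)
      obtain ⟨y, hy, hgy⟩ := hiso g hg
      rcases hEF y hy with h | h
      · exact hn y h g hgF (sym _ _ hgy)
      · have h3 : (A g y ↔ A u y) := hm.2.2.2 y hy ⟨fun h' => absurd h' (hn u hu y h),
          fun h' => absurd h' (hn v hv y h)⟩
        exact hn u hu y h (h3.1 hgy)
  have hcov : ∀ v ∈ D, v ∈ K ∨ v ∈ K' := by
    intro v hv
    by_cases h : v ∈ K
    · exact Or.inl h
    · exact Or.inr ((memK' v).2 ⟨hv, h⟩)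
  have hno1 : ∀ u ∈ K, ∀ v ∈ K', ¬ A u v := fun u hu v hv =>
    hno u hu v ((memK' v).1 hv).1 ((memK' v).1 hv).2
  have hno2 : ∀ u ∈ K', ∀ v ∈ K, ¬ A u v := fun u hu v hv h => hno1 v hv u hu (sym _ _ h)
  obtain ⟨k, hk⟩ := hne
  obtain ⟨k', hk'D, hk'K⟩ := hne'
  have hk' : k' ∈ K' := (memK' k').2 ⟨hk'D, hk'K⟩
  have s1 : K ⊂ D := by
    refine ⟨hK, fun h => hk'K (h hk'D)⟩
  have s2 : K' ⊂ D := by
    refine ⟨hKD', fun h => ((memK' k).1 (h (hK hk))).2 hk⟩
  have p1 := inh K K' hK hcov hKD' hno1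
  have p2 := inh K' K hKD' (fun v hv => (hcov v hv).symm) hK hno2
  have fr : ∀ E : Finset V, E ⊆ D → Free A E := fun E hE a ha b hb c hc d hd =>
    hfree a (hE ha) b (hE hb) c (hE hc) d (hE hd)
  have full : ∀ E F : Finset V, E ⊆ D → (∀ v ∈ D, v ∈ E ∨ v ∈ F) → (∀ u ∈ E, ∀ v ∈ F, ¬ A u v) →
      IoF A E → ∃ f ∈ E, ∀ y ∈ E, A f y := by
    intro E F hE hEF hn h
    rcases h with ⟨x, hx, h⟩ | h
    · exfalso
      obtain ⟨y, hy, hxy⟩ := hiso x (hE hx)
      rcases hEF y hy with h' | h'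
      · exact h y h' hxy
      · exact hn x hx y h' hxy
    · exact h
  obtain ⟨f₁, hf₁, hF₁⟩ := full K K' hK hcov hno1 (ih K s1 ⟨k, hk⟩ (fr K hK) p1)
  obtain ⟨f₂, hf₂, hF₂⟩ := full K' K hKD' (fun v hv => (hcov v hv).symm) hno2
    (ih K' s2 ⟨k', hk'⟩ (fr K' hKD') p2)
  obtain ⟨g, hg, hm⟩ := hp f₁ (hK hf₁) f₂ (hKD' hf₂)
    ⟨fun _ => hF₂ f₂ hf₂, fun _ => hF₁ f₁ hf₁⟩
    ⟨fun h => absurd h (hno1 f₁ hf₁ f₂ hf₂), fun h => absurd (hF₁ f₁ hf₁) h⟩
  have g1 : ¬ A g f₁ := fun h => (hm.2.1.1 h) (hF₁ f₁ hf₁)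
  have g2 : ¬ A g f₂ := fun h => (hm.2.2.1.1 h) (hF₁ f₁ hf₁)
  rcases hcov g hg with h | h
  · exact g1 (sym _ _ (hF₁ g h))
  · exact g2 (sym _ _ (hF₂ g h))

omit [Fintype V] [DecidableEq V] in
theorem pairs_compl {D : Finset V} (hp : Pairs A D) : Pairs (fun x y => ¬ A x y) D := by
  intro u hu v hv h1 h2
  obtain ⟨g, hg, h3, h4, h5, h6⟩ := hp u hu v hv (not_iff_not.1 h1) (not_iff_not.1 h2)
  exact ⟨g, hg, not_iff_not.2 h3, not_iff_not.2 h4, not_iff_not.2 h5,
    fun y hy h => not_iff_not.2 (h6 y hy (not_iff_not.1 h))⟩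

omit [Fintype V] in
/-- Claim A -/
theorem claimA : ∀ (n : ℕ) (A : V → V → Prop), (∀ x y, A x y → A y x) → ∀ D : Finset V,
    D.card = n → D.Nonempty → Free A D → Pairs A D → IoF A D := by
  classical
  intro n
  induction n using Nat.strong_induction_on with
  | _ n ih =>
    intro A sym D hD hne hfree hp
    by_cases h1 : D.card ≤ 1
    · obtain ⟨x, hx⟩ := hne
      have hxD : ∀ y ∈ D, y = x := fun y hy => Finset.card_le_one.1 h1 y hy x hx
      by_cases h : A x x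
      · exact Or.inr ⟨x, hx, fun y hy => by rw [hxD y hy]; exact h⟩
      · exact Or.inl ⟨x, hx, fun y hy => by rw [hxD y hy]; exact h⟩
    · obtain ⟨K, h1, h2, h3, h4⟩ := split_of_free sym D.card D rfl (by omega) hfree
      rcases h4 with h4 | h4
      · left
        refine iof_step sym hfree hp h2 h1 h3 h4 ?_
        intro E hE hEn hEf hEp
        exact ih E.card (by rw [← hD]; exact Finset.card_lt_card hE) A sym E rfl hEn hEf hEp
      · right
        have sym' : ∀ x y, ¬ A x y → ¬ A y x := fun x y h h' => h (sym _ _ h')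
        have h5 := iof_step (A := fun x y => ¬ A x y) sym' (free_compl sym hfree)
          (pairs_compl hp) h2 h1 h3 (fun u hu v hv hvn => not_not.2 (h4 u hu v hv hvn)) ?_
        · obtain ⟨x, hx, h⟩ := h5
          exact ⟨x, hx, fun y hy => not_not.1 (h y hy)⟩
        · intro E hE hEn hEf hEp
          exact ih E.card (by rw [← hD]; exact Finset.card_lt_card hE) _ sym' E rfl hEn hEf hEp

omit [Fintype V] in
/-- the component of an edge has a full vertex -/
theorem full_component (sym : ∀ x y, A x y → A y x) {D : Finset V} (hfree : Free A D)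
    (hp : Pairs A D) {x y : V} (hx : x ∈ D) (hy : y ∈ D) (hxy : A x y) :
    ∃ f ∈ D, A f f ∧ A f x ∧ A f y ∧ ∀ u ∈ D, A f u → ∀ v ∈ D, A u v → A f v := by
  classical
  -- balls of radius two are closed
  have ball : ∀ u ∈ D, ∀ v ∈ D, (A u v ∨ ∃ t ∈ D, A u t ∧ A t v) → ∀ w ∈ D, A v w →
      (A u w ∨ ∃ t ∈ D, A u t ∧ A t w) := by
    intro u hu v hv h w hw hvw
    rcases h with h | ⟨t, ht, hut, htv⟩
    · exact Or.inr ⟨v, hv, h, hvw⟩
    · by_contra hc
      push Not at hc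
      obtain ⟨hc1, hc2⟩ := hc
      have huv : ¬ A u v := fun h => hc2 v hv h hvw
      have htw : ¬ A t w := fun h => hc2 t ht hut h
      exact hfree u hu t ht v hv w hw ⟨hut, htv, hvw, huv, hc1, htw⟩
  set K := D.filter fun v => A x v ∨ ∃ t ∈ D, A x t ∧ A t v with hK
  have memK : ∀ v, v ∈ K ↔ v ∈ D ∧ (A x v ∨ ∃ t ∈ D, A x t ∧ A t v) := fun v => by
    rw [hK, Finset.mem_filter]
  have hKD : K ⊆ D := fun v hv => ((memK v).1 hv).1
  have hclo : ∀ u ∈ K, ∀ v ∈ D, A u v → v ∈ K := fun u hu v hv h =>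
    (memK v).2 ⟨hv, ball x hx u (hKD hu) ((memK u).1 hu).2 v hv h⟩
  have hxK : x ∈ K := (memK x).2 ⟨hx, Or.inr ⟨y, hy, hxy, sym _ _ hxy⟩⟩
  have hyK : y ∈ K := (memK y).2 ⟨hy, Or.inl hxy⟩
  have hfK : Free A K := fun a ha b hb c hc d hd =>
    hfree a (hKD ha) b (hKD hb) c (hKD hc) d (hKD hd)
  have hpK : Pairs A K := by
    intro u hu v hv h1 h2
    obtain ⟨g, hg, hm⟩ := hp u (hKD hu) v (hKD hv) h1 h2
    refine ⟨g, ?_, hm.1, hm.2.1, hm.2.2.1, fun t ht => hm.2.2.2 t (hKD ht)⟩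
    by_cases hl : A u u
    · -- a common neighbour
      have huv : ¬ A u v := fun h => (h2.1 h) hl
      have hux : A u x ∨ ∃ t ∈ D, A u t ∧ A t x := by
        rcases ((memK u).1 hu).2 with h | ⟨t, ht, hxt, htu⟩
        · exact Or.inl (sym _ _ h)
        · exact Or.inr ⟨t, ht, sym _ _ htu, sym _ _ hxt⟩
      have huv2 : A u v ∨ ∃ t ∈ D, A u t ∧ A t v := by
        rcases ((memK v).1 hv).2 with h | ⟨t, ht, hxt, htv⟩
        · exact ball u (hKD hu) x hx hux v (hKD hv) h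
        · exact ball u (hKD hu) t ht (ball u (hKD hu) x hx hux t ht hxt) v (hKD hv) htv
      obtain ⟨t, ht, hut, htv⟩ := huv2.resolve_left huv
      have htK : t ∈ K := hclo u hu t ht hut
      have hgt : A g t := (hm.2.2.2 t ht ⟨fun _ => sym _ _ htv, fun _ => hut⟩).2 hut
      exact hclo t htK g hg (sym _ _ hgt)
    · exact hclo u hu g hg (sym _ _ (hm.2.1.2 hl))
  rcases claimA K.card A sym K rfl ⟨x, hxK⟩ hfK hpK with ⟨i, hi, h⟩ | ⟨f, hf, h⟩
  · exfalso
    rcases ((memK i).1 hi).2 with h' | ⟨t, ht, hxt, hti⟩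
    · exact h x hxK (sym _ _ h')
    · exact h t (hclo x hxK t ht hxt) (sym _ _ hti)
  · exact ⟨f, hKD hf, h f hf, h x hxK, h y hyK, fun u hu hfu v hv huv =>
      h v (hclo u (hclo f hf u hu hfu) v hv huv)⟩

end Pool.Agent.H62.Ind
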