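import Mathlib
import Pool.Agent.H62.Ind.Cyl

set_option autoImplicit false

/-!
The relation of a rooted critical code has no induced path on four vertices (MP_a46c6f_co, note 7046):
minimal cylinders.
-/

namespace Pool.Agent.H62.Ind

open Pool.Agent.H44.P4

variable {V : Type} [Fintype V] [DecidableEq V] {A : V → V → Prop} {C : Finset V}

/-- `C` contains every vertex which agrees with `C` on the coordinates constant on `C` -/
def Cyl (A : V → V → Prop) (C : Finset V) : Prop :=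
  ∀ g, (∀ y, (∀ u ∈ C, ∀ v ∈ C, (A u y ↔ A v y)) → ∀ u ∈ C, (A g y ↔ A u y)) → g ∈ C

omit [Fintype V] [DecidableEq V] in
theorem cyl_compl (h : Cyl A C) : Cyl (fun x y => ¬ A x y) C := by
  intro g hg
  apply h g
  intro y hy u hu
  exact not_iff_not.1 (hg y (fun u hu v hv => not_iff_not.2 (hy u hu v hv)) u hu)

omit [Fintype V] [DecidableEq V] in
theorem cyl_compl' (h : Cyl (fun x y => ¬ A x y) C) : Cyl A C := by
  intro g hg
  apply h g
  intro y hy u hu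
  exact not_iff_not.2 (hg y (fun u hu v hv => not_iff_not.1 (hy u hu v hv)) u hu)

open Classical in
/-- the neighbours of `w` in `C` -/
noncomputable def N (A : V → V → Prop) (C : Finset V) (w : V) : Finset V := C.filter fun y => A w y

open Classical in
/-- the other vertices of `C` -/
noncomputable def Nc (A : V → V → Prop) (C : Finset V) (w : V) : Finset V :=
  C.filter fun y => ¬ A w y

omit [Fintype V] [DecidableEq V] in
theorem memN {w y : V} : y ∈ N A C w ↔ y ∈ C ∧ A w y := by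
  classical
  unfold N
  rw [Finset.mem_filter]

omit [Fintype V] [DecidableEq V] in
theorem memNc {w y : V} : y ∈ Nc A C w ↔ y ∈ C ∧ ¬ A w y := by
  classical
  unfold Nc
  rw [Finset.mem_filter]

omit [Fintype V] [DecidableEq V] in
theorem cyl_N (sym : ∀ x y, A x y → A y x) (h : Cyl A C) {w t : V} (ht : t ∈ C) (hwt : A w t) :
    Cyl A (N A C w) := by
  intro g hg
  have htN : t ∈ N A C w := memN.2 ⟨ht, hwt⟩
  refine memN.2 ⟨h g ?_, ?_⟩
  · intro y hy u hu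
    rw [hg y (fun u hu v hv => hy u (memN.1 hu).1 v (memN.1 hv).1) t htN]
    exact hy t ht u hu
  · have := hg w (fun u hu v hv => ⟨fun _ => sym _ _ (memN.1 hv).2, fun _ => sym _ _ (memN.1 hu).2⟩)
      t htN
    exact sym _ _ (this.2 (sym _ _ hwt))

omit [Fintype V] [DecidableEq V] in
theorem cyl_Nc (sym : ∀ x y, A x y → A y x) (h : Cyl A C) {w t : V} (ht : t ∈ C)
    (hwt : ¬ A w t) : Cyl A (Nc A C w) := by
  intro g hg
  have htN : t ∈ Nc A C w := memNc.2 ⟨ht, hwt⟩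
  refine memNc.2 ⟨h g ?_, ?_⟩
  · intro y hy u hu
    rw [hg y (fun u hu v hv => hy u (memNc.1 hu).1 v (memNc.1 hv).1) t htN]
    exact hy t ht u hu
  · have := hg w (fun u hu v hv => ⟨fun h' => absurd (sym _ _ h') (memNc.1 hu).2,
      fun h' => absurd (sym _ _ h') (memNc.1 hv).2⟩) t htN
    exact fun h' => hwt (sym _ _ (this.1 (sym _ _ h')))

/-- a minimal cylinder with an induced path on four vertices -/
structure MinC (A : V → V → Prop) (C : Finset V) : Prop where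
  sym : ∀ x y, A x y → A y x
  pairs : ∀ D, Cyl A D → Pairs A D
  cyl : Cyl A C
  min : ∀ D, D ⊆ C → (∃ x ∈ C, x ∉ D) → Cyl A D → Free A D
  nfree : ¬ Free A C

omit [Fintype V] [DecidableEq V] in
theorem MinC.compl (h : MinC A C) : MinC (fun x y => ¬ A x y) C := by
  have sym' : ∀ x y, ¬ A x y → ¬ A y x := fun x y h' h'' => h' (h.sym _ _ h'')
  refine ⟨sym', fun D hD => pairs_compl (h.pairs D (cyl_compl' hD)), cyl_compl h.cyl, ?_, ?_⟩
  · intro D h1 h2 h3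
    exact free_compl h.sym (h.min D h1 h2 (cyl_compl' h3))
  · intro hf
    apply h.nfree
    have := free_compl sym' hf
    intro a ha b hb c hc d hd hP
    refine this a ha b hb c hc d hd ⟨not_not.2 hP.1, not_not.2 hP.2.1, not_not.2 hP.2.2.1,
      not_not.2 hP.2.2.2.1, not_not.2 hP.2.2.2.2.1, not_not.2 hP.2.2.2.2.2⟩

omit [Fintype V] in
theorem core (h : MinC A C) (hnf : ∀ x ∈ C, ∃ y ∈ C, ¬ A x y) :
    ∃ a ∈ C, ∃ b ∈ C, ∃ c ∈ C, ∃ d ∈ C, P4 A a b c d ∧ ¬ A a a ∧ A b b ∧ A c c ∧ ¬ A d d ∧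
      ∀ g ∈ C, ¬ Bad A a b c d g := by
  classical
  have sym := h.sym
  have hpC : Pairs A C := h.pairs C h.cyl
  -- (0)
  have fN : ∀ w, (∃ y ∈ C, A w y) → (∃ y ∈ C, ¬ A w y) → Free A (N A C w) := by
    rintro w ⟨t, ht, hwt⟩ ⟨s, hs, hws⟩
    exact h.min _ (fun y hy => (memN.1 hy).1) ⟨s, hs, fun h' => hws (memN.1 h').2⟩
      (cyl_N sym h.cyl ht hwt)
  have fNc : ∀ w, (∃ y ∈ C, A w y) → (∃ y ∈ C, ¬ A w y) → Free A (Nc A C w) := by
    rintro w ⟨t, ht, hwt⟩ ⟨s, hs, hws⟩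
    exact h.min _ (fun y hy => (memNc.1 hy).1) ⟨t, ht, fun h' => (memNc.1 h').2 hwt⟩
      (cyl_Nc sym h.cyl hs hws)
  -- (1)
  have plus : ∀ w ∈ C, ¬ A w w → (∃ y ∈ C, A w y) →
      ∃ x ∈ C, A x x ∧ A w x ∧ ∀ y ∈ C, A w y → A x y := by
    rintro w hw hww ⟨t, ht, hwt⟩
    have hf := fN w ⟨t, ht, hwt⟩ (hnf w hw)
    have hp := h.pairs _ (cyl_N sym h.cyl ht hwt)
    rcases claimA _ A sym (N A C w) rfl ⟨t, memN.2 ⟨ht, hwt⟩⟩ hf hp with ⟨x, hx, hi⟩ | ⟨x, hx, hi⟩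
    · exfalso
      have hxx : ¬ A x x := hi x hx
      have hwx := (memN.1 hx).2
      obtain ⟨g, hg, hm⟩ := hpC w hw x (memN.1 hx).1
        ⟨fun h' => absurd h' hww, fun h' => absurd h' hxx⟩ ⟨fun _ => hww, fun _ => hwx⟩
      have hgw : A g w := hm.2.1.2 hww
      have hgx : A g x := hm.2.2.1.2 hww
      exact hi g (memN.2 ⟨hg, sym _ _ hgw⟩) (sym _ _ hgx)
    · exact ⟨x, (memN.1 hx).1, hi x hx, (memN.1 hx).2, fun y hy hwy => hi y (memN.2 ⟨hy, hwy⟩)⟩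
  -- (2)
  have iso2 : ∀ b ∈ C, ∀ c ∈ C, A b b → A c c → A b c → (∃ y ∈ C, A b y ∧ ¬ A c y) →
      ∃ a ∈ C, A b a ∧ ¬ A c a ∧ ∀ y ∈ C, A b y → ¬ A c y → ¬ A a y := by
    rintro b hb c hc hbb hcc hbc ⟨t, ht, hbt, hct⟩
    have hf := fN b ⟨b, hb, hbb⟩ (hnf b hb)
    have c1 := cyl_N sym h.cyl ht hbt
    have c2 := cyl_Nc sym c1 (memN.2 ⟨ht, hbt⟩) hct
    have hp := h.pairs _ c2
    have mem : ∀ y, y ∈ Nc A (N A C b) c ↔ y ∈ C ∧ A b y ∧ ¬ A c y := by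
      intro y
      rw [memNc, memN]
      tauto
    have hf' : Free A (Nc A (N A C b) c) := by
      intro a ha b' hb' c' hc' d hd
      exact hf a (memNc.1 ha).1 b' (memNc.1 hb').1 c' (memNc.1 hc').1 d (memNc.1 hd).1
    rcases claimA _ A sym _ rfl ⟨t, (mem t).2 ⟨ht, hbt, hct⟩⟩ hf' hp with ⟨a, ha, hi⟩ | ⟨a, ha, hi⟩
    · exact ⟨a, ((mem a).1 ha).1, ((mem a).1 ha).2.1, ((mem a).1 ha).2.2,
        fun y hy h1 h2 => hi y ((mem y).2 ⟨hy, h1, h2⟩)⟩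
    · exfalso
      have haa : A a a := hi a ha
      obtain ⟨haC, hba, hca⟩ := (mem a).1 ha
      obtain ⟨g, hg, hm⟩ := hpC a haC c hc ⟨fun _ => hcc, fun _ => haa⟩
        ⟨fun h' => absurd (sym _ _ h') hca, fun h' => absurd haa h'⟩
      have hga : ¬ A g a := fun h' => (hm.2.1.1 h') haa
      have hgc : ¬ A g c := fun h' => (hm.2.2.1.1 h') haa
      have hgb : A g b := (hm.2.2.2 b hb ⟨fun _ => sym _ _ hbc, fun _ => sym _ _ hba⟩).2
        (sym _ _ hba)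
      exact hga (sym _ _ (hi g ((mem g).2 ⟨hg, sym _ _ hgb, fun h' => hgc (sym _ _ h')⟩)))
  -- a vertex with a maximal neighbourhood
  have hnfree := h.nfree
  unfold Free at hnfree
  push Not at hnfree
  obtain ⟨a', ha', b', hb', c', hc', d', hd', hP⟩ := hnfree
  obtain ⟨b, hb, hmax⟩ := Finset.exists_max_image C (fun x => (N A C x).card) ⟨a', ha'⟩
  have hbmax : ∀ x ∈ C, (∀ y ∈ C, A b y → A x y) → ∀ y ∈ C, A x y → A b y := by
    intro x hx hsub y hy hxy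
    have h1 : N A C b ⊆ N A C x := fun t ht => memN.2 ⟨(memN.1 ht).1, hsub t (memN.1 ht).1 (memN.1 ht).2⟩
    have h2 := Finset.eq_of_subset_of_card_le h1 (hmax x hx)
    have h3 : y ∈ N A C b := by rw [h2]; exact memN.2 ⟨hy, hxy⟩
    exact (memN.1 h3).2
  have hbne : ∃ y ∈ C, A b y := by
    have h1 : 0 < (N A C a').card := Finset.card_pos.2 ⟨b', memN.2 ⟨hb', hP.1⟩⟩
    have h2 : 0 < (N A C b).card := lt_of_lt_of_le h1 (hmax a' ha')
    obtain ⟨y, hy⟩ := Finset.card_pos.1 h2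
    exact ⟨y, (memN.1 hy).1, (memN.1 hy).2⟩
  have hbb : A b b := by
    by_contra hc
    obtain ⟨x, hx, hxx, hbx, hsub⟩ := plus b hb hc hbne
    exact hc (hbmax x hx hsub b hb (sym _ _ hbx))
  -- (3)
  have edge : ∃ y ∈ C, ∃ z ∈ C, A b y ∧ ¬ A b z ∧ A y z := by
    by_contra hc
    push Not at hc
    have clo : ∀ y ∈ C, ∀ z ∈ C, A b y → A y z → A b z := by
      intro y hy z hz h1 h2
      by_contra h3
      exact hc y hy z hz h1 h3 h2
    by_cases h0 : A b a'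
    · have h1 := clo a' ha' b' hb' h0 hP.1
      have h2 := clo b' hb' c' hc' h1 hP.2.1
      have h3 := clo c' hc' d' hd' h2 hP.2.2.1
      exact fN b hbne (hnf b hb) a' (memN.2 ⟨ha', h0⟩) b' (memN.2 ⟨hb', h1⟩) c' (memN.2 ⟨hc', h2⟩)
        d' (memN.2 ⟨hd', h3⟩) hP
    · have h1 : ¬ A b b' := fun h' => h0 (clo b' hb' a' ha' h' (sym _ _ hP.1))
      have h2 : ¬ A b c' := fun h' => h1 (clo c' hc' b' hb' h' (sym _ _ hP.2.1))
      have h3 : ¬ A b d' := fun h' => h2 (clo d' hd' c' hc' h' (sym _ _ hP.2.2.1))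
      exact fNc b hbne (hnf b hb) a' (memNc.2 ⟨ha', h0⟩) b' (memNc.2 ⟨hb', h1⟩) c'
        (memNc.2 ⟨hc', h2⟩) d' (memNc.2 ⟨hd', h3⟩) hP
  obtain ⟨y, hy, t, ht, hby, hbt, hyt⟩ := edge
  have getc : ∃ c ∈ C, A c c ∧ A c b ∧ A c t := by
    by_cases hyy : A y y
    · exact ⟨y, hy, hyy, sym _ _ hby, hyt⟩
    · obtain ⟨x, hx, hxx, hyx, hsub⟩ := plus y hy hyy ⟨b, hb, sym _ _ hby⟩
      exact ⟨x, hx, hxx, hsub b hb (sym _ _ hby), hsub t ht hyt⟩
  obtain ⟨c, hc, hcc, hcb, hct⟩ := getc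
  obtain ⟨d₁, hd₁, hcd₁, hbd₁, hiso₁⟩ := iso2 c hc b hb hcc hbb hcb ⟨t, ht, hct, hbt⟩
  have hd₁d₁ : ¬ A d₁ d₁ := hiso₁ d₁ hd₁ hcd₁ hbd₁
  obtain ⟨q, hq, hqq, hd₁q, hqsub⟩ := plus d₁ hd₁ hd₁d₁ ⟨c, hc, sym _ _ hcd₁⟩
  have hqc : A q c := hqsub c hc (sym _ _ hcd₁)
  have hbq : A b q := by
    by_contra h'
    exact hiso₁ q hq (sym _ _ hqc) h' hd₁q
  have getd : ∃ d ∈ C, ¬ A d d ∧ ¬ A b d ∧ (∃ y ∈ C, A d y) ∧ ∀ y ∈ C, A d y → A b y := by
    by_cases hcase : ∀ y ∈ C, A d₁ y → A b y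
    · exact ⟨d₁, hd₁, hd₁d₁, hbd₁, ⟨q, hq, hd₁q⟩, hcase⟩
    · push Not at hcase
      obtain ⟨s, hs, hd₁s, hbs⟩ := hcase
      obtain ⟨f, hf, hff, hfd, hfs, hclo⟩ := full_component sym (fNc b hbne (hnf b hb))
        (h.pairs _ (cyl_Nc sym h.cyl hs hbs)) (memNc.2 ⟨hd₁, hbd₁⟩) (memNc.2 ⟨hs, hbs⟩) hd₁s
      obtain ⟨hfC, hbf⟩ := memNc.1 hf
      obtain ⟨g, hg, hm⟩ := hpC f hfC b hb ⟨fun _ => hbb, fun _ => hff⟩
        ⟨fun h' => absurd (sym _ _ h') hbf, fun h' => absurd hff h'⟩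
      have hgg : ¬ A g g := fun h' => (hm.1.1 h') hff
      have hgf : ¬ A g f := fun h' => (hm.2.1.1 h') hff
      have hgb : ¬ A g b := fun h' => (hm.2.2.1.1 h') hff
      have hgG : g ∈ Nc A C b := memNc.2 ⟨hg, fun h' => hgb (sym _ _ h')⟩
      have hN : ∀ s ∈ C, A g s → A b s := by
        intro s hs hgs
        by_contra hbs
        have hfs : A f s := by
          by_contra hfs
          exact hfs ((hm.2.2.2 s hs ⟨fun h' => absurd h' hfs, fun h' => absurd h' hbs⟩).1 hgs)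
        exact hgf (sym _ _ (hclo s (memNc.2 ⟨hs, hbs⟩) hfs g hgG (sym _ _ hgs)))
      have hfq : A f q := sym _ _ (hqsub f hfC (sym _ _ hfd))
      have hgq : A g q := (hm.2.2.2 q hq ⟨fun _ => hbq, fun _ => hfq⟩).2 hfq
      exact ⟨g, hg, hgg, fun h' => hgb (sym _ _ h'), ⟨q, hq, hgq⟩, hN⟩
  obtain ⟨d, hd, hdd, hbd, hdne, hdb⟩ := getd
  -- (4)
  obtain ⟨e, he, hee, hde, hdsub⟩ := plus d hd hdd hdne
  have hbe : A b e := hdb e he hde
  have hex : ∃ y ∈ C, A b y ∧ ¬ A e y := by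
    by_contra h'
    push Not at h'
    exact hbd (hbmax e he h' d hd (sym _ _ hde))
  obtain ⟨a, ha, hba, hea, hiso⟩ := iso2 b hb e he hbb hee hbe hex
  have haa : ¬ A a a := hiso a ha hba hea
  have had : ¬ A a d := fun h' => hea (hdsub a ha (sym _ _ h'))
  refine ⟨a, ha, b, hb, e, he, d, hd, ⟨sym _ _ hba, hbe, sym _ _ hde, fun h' => hea (sym _ _ h'),
    had, hbd⟩, haa, hbb, hee, hdd, ?_⟩
  -- (5)
  rintro g hg (⟨h1, h2, h3, h4⟩ | ⟨h1, h2, h3, h4⟩ | ⟨h1, h2, h3, h4⟩ | ⟨h1, h2, h3, h4⟩)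
  · exact hiso g hg (sym _ _ h2) (fun h' => h3 (sym _ _ h')) (sym _ _ h1)
  · -- sees exactly `a` and `e`
    have haE : a ∈ Nc A C d := memNc.2 ⟨ha, fun h' => had (sym _ _ h')⟩
    have hbE : b ∈ Nc A C d := memNc.2 ⟨hb, fun h' => hbd (sym _ _ h')⟩
    have hgE : g ∈ Nc A C d := memNc.2 ⟨hg, fun h' => h4 (sym _ _ h')⟩
    obtain ⟨f, hf, hff, hfa, hfb, hclo⟩ := full_component sym (fNc d hdne ⟨d, hd, hdd⟩)
      (h.pairs _ (cyl_Nc sym h.cyl hd hdd)) haE hbE (sym _ _ hba)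
    obtain ⟨hfC, hdf⟩ := memNc.1 hf
    have hfg : A f g := hclo a haE hfa g hgE (sym _ _ h1)
    have hfe : A f e := by
      by_contra h'
      exact hiso f hfC (sym _ _ hfb) (fun h'' => h' (sym _ _ h'')) (sym _ _ hfa)
    have hv : ∃ v ∈ C, A d v ∧ ¬ A f v := by
      by_contra hcon
      push Not at hcon
      have hsub : ∀ y ∈ C, A b y → A f y := by
        intro y hy hby
        by_cases hdy : A d y
        · exact hcon y hy hdy
        · exact hclo b hbE hfb y (memNc.2 ⟨hy, hdy⟩) hby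
      exact h2 (sym _ _ (hbmax f hfC hsub g hg hfg))
    obtain ⟨v, hv, hdv, hfv⟩ := hv
    have hbv : A b v := hdb v hv hdv
    have hev : A e v := hdsub v hv hdv
    exact fN e ⟨e, he, hee⟩ (hnf e he) f (memN.2 ⟨hfC, sym _ _ hfe⟩) b
      (memN.2 ⟨hb, sym _ _ hbe⟩) v (memN.2 ⟨hv, hev⟩) d (memN.2 ⟨hd, sym _ _ hde⟩)
      ⟨hfb, hbv, sym _ _ hdv, hfv, fun h' => hdf (sym _ _ h'), hbd⟩
  · exact h3 (sym _ _ (hdsub g hg (sym _ _ h4)))
  · exact h2 (sym _ _ (hdb g hg (sym _ _ h4)))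

omit [Fintype V] in
theorem core' (h : MinC A C) :
    ∃ a ∈ C, ∃ b ∈ C, ∃ c ∈ C, ∃ d ∈ C, P4 A a b c d ∧ ¬ A a a ∧ A b b ∧ A c c ∧ ¬ A d d ∧
      ∀ g ∈ C, ¬ Bad A a b c d g := by
  classical
  by_cases hnf : ∀ x ∈ C, ∃ y ∈ C, ¬ A x y
  · exact core h hnf
  · push Not at hnf
    obtain ⟨f, hf, hfull⟩ := hnf
    obtain ⟨a, ha, b, hb, c, hc, d, hd, hP, h1, h2, h3, h4, h5⟩ := core h.compl (by
      intro x hx
      by_contra hc
      push Not at hc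
      exact (not_not.1 (not_not.2 (hc f hf))) (h.sym _ _ (hfull x hx)))
    obtain ⟨p1, p2, p3, p4, p5, p6⟩ := hP
    refine ⟨c, hc, a, ha, d, hd, b, hb, ⟨h.sym _ _ (not_not.1 p4), not_not.1 p5,
      h.sym _ _ (not_not.1 p6), p3, fun h' => p2 (h.sym _ _ h'), p1⟩, h3, not_not.1 h1,
      not_not.1 h4, h2, ?_⟩
    intro g hg hbad
    apply h5 g hg
    unfold Bad at hbad ⊢
    tauto

omit [Fintype V] [DecidableEq V] in
theorem exists_minimal_card {Q : Finset V → Prop} (h : ∃ C, Q C) :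
    ∃ C, Q C ∧ ∀ D, Q D → C.card ≤ D.card := by
  classical
  have h' : ∃ n, ∃ C, Q C ∧ C.card = n := by
    obtain ⟨C, hC⟩ := h
    exact ⟨C.card, C, hC, rfl⟩
  obtain ⟨C, hC, hn⟩ := Nat.find_spec h'
  refine ⟨C, hC, fun D hD => ?_⟩
  rw [hn]
  exact Nat.find_min' h' ⟨D, hD, rfl⟩

/-- **no induced path on four vertices.** -/
theorem nop4 (sym : ∀ x y, A x y → A y x)
    (pairs : ∀ u v, (A u u ↔ A v v) → (A u v ↔ ¬ A u u) → ∃ g, Mid A Finset.univ u v g)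
    (p4 : ∀ a b c d, P4 A a b c d → ¬ A a a → A b b → A c c → ¬ A d d →
      ∃ g, Bad A a b c d g ∧
        ∀ y, (A a y ↔ A b y) → (A b y ↔ A c y) → (A c y ↔ A d y) → (A g y ↔ A a y)) :
    Free A Finset.univ := by
  classical
  by_contra hnf
  have hpairs : ∀ D, Cyl A D → Pairs A D := by
    intro D hD u hu v hv h1 h2
    obtain ⟨g, hm⟩ := pairs u v h1 h2
    refine ⟨g, hD g ?_, hm.1, hm.2.1, hm.2.2.1, fun y _ => hm.2.2.2 y (Finset.mem_univ y)⟩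
    intro y hy w hw
    rw [hm.2.2.2 y (Finset.mem_univ y) (hy u hu v hv)]
    exact hy u hu w hw
  have hex : ∃ C : Finset V, Cyl A C ∧ ¬ Free A C := ⟨Finset.univ, fun g _ => Finset.mem_univ g, hnf⟩
  obtain ⟨C, ⟨hC, hCf⟩, hmin⟩ := exists_minimal_card hex
  have hM : MinC A C := by
    refine ⟨sym, hpairs, hC, ?_, hCf⟩
    intro D hDC ⟨x, hx, hxD⟩ hD
    by_contra hDf
    have h1 := hmin D ⟨hD, hDf⟩
    have h2 : D.card < C.card := Finset.card_lt_card ⟨hDC, fun h' => hxD (h' hx)⟩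
    omega
  obtain ⟨a, ha, b, hb, c, hc, d, hd, hP, h1, h2, h3, h4, h5⟩ := core' hM
  obtain ⟨g, hg, hgy⟩ := p4 a b c d hP h1 h2 h3 h4
  refine h5 g (hC g ?_) hg
  intro y hy u hu
  rw [hgy y (hy a ha b hb) (hy b hb c hc) (hy c hc d hd)]
  exact hy a ha u hu

end Pool.Agent.H62.Ind
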