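import Mathlib
import Pool.Agent.H62.Ind.Nop
import Pool.Agent.H17.P3.Defs

set_option autoImplicit false

/-!
The matrix statement (P3) (MP_a46c6f_co).
-/

namespace Pool.Agent.H62.Ind

theorem z2 : ∀ a : ZMod 2, a ≠ 1 ↔ a = 0 := by decide

theorem iff_eq (a b : ZMod 2) : (a = 1 ↔ b = 1) ↔ a = b := by
  revert a b
  decide

theorem p3 : Pool.Agent.H17.P3.P3 := by
  classical
  intro X _ M sym pairs p4 a b c d h
  haveI : Fintype X := Fintype.ofFinite X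
  have key := nop4 (V := X) (A := fun x y => M x y = 1) (fun x y h => by rw [sym y x]; exact h) ?_ ?_
  · exact key a (Finset.mem_univ a) b (Finset.mem_univ b) c (Finset.mem_univ c) d
      (Finset.mem_univ d) ⟨h.ab, h.bc, h.cd, (z2 _).2 h.ac, (z2 _).2 h.ad, (z2 _).2 h.bd⟩
  · intro u v h1 h2
    have h1' : M u u = M v v := (iff_eq _ _).1 h1
    have h2' : M u v ≠ M u u := by
      intro h
      rw [h] at h2
      exact absurd h2 (by tauto)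
    obtain ⟨g, g1, g2, g3, g4⟩ := pairs u v h1' h2'
    have e : ∀ p q : ZMod 2, p ≠ q → (p = 1 ↔ ¬ q = 1) := by decide
    refine ⟨g, e _ _ g1, ?_, ?_, ?_⟩
    · show (M g u = 1 ↔ ¬ M u u = 1)
      rw [g2]; exact e _ _ g1
    · show (M g v = 1 ↔ ¬ M u u = 1)
      rw [g3]; exact e _ _ g1
    · intro y _ hy
      have hy' : M u y = M v y := (iff_eq _ _).1 hy
      show (M g y = 1 ↔ M u y = 1)
      rw [g4 y hy']
  · intro a b c d hP h1 h2 h3 h4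
    obtain ⟨q1, q2, q3, q4, q5, q6⟩ := hP
    obtain ⟨g, hg, hy⟩ := p4 a b c d ⟨q1, q2, q3, (z2 _).1 q4, (z2 _).1 q5, (z2 _).1 q6⟩
      ((z2 _).1 h1) h2 h3 ((z2 _).1 h4)
    refine ⟨g, ?_, ?_⟩
    · obtain ⟨hg1, hg2⟩ := hg
      have e : ∀ p q r s : ZMod 2, p ≠ s → q ≠ r →
          ((p = 1 ∧ q = 1 ∧ ¬ r = 1 ∧ ¬ s = 1) ∨ (p = 1 ∧ ¬ q = 1 ∧ r = 1 ∧ ¬ s = 1) ∨
            (¬ p = 1 ∧ q = 1 ∧ ¬ r = 1 ∧ s = 1) ∨ (¬ p = 1 ∧ ¬ q = 1 ∧ r = 1 ∧ s = 1)) := by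
        decide
      exact e _ _ _ _ hg1 hg2
    · intro y e1 e2 e3
      have e1' := (iff_eq _ _).1 e1
      have e2' := (iff_eq _ _).1 e2
      have e3' := (iff_eq _ _).1 e3
      show (M g y = 1 ↔ M a y = 1)
      rw [hy y e1' (e1'.trans e2') (e1'.trans (e2'.trans e3'))]

end Pool.Agent.H62.Ind
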