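import Mathlib
import Pool.Agent.H57.Code.IndFin
import Pool.Agent.H16.CA.Card

set_option autoImplicit false

/-!
Indecomposable weights on permutation graphs (MP_a46c6f_co): assembly.
-/

namespace Pool.Agent.H62.Ind

open SimpleGraph Pool.Agent.H5.Goddyn Pool.Agent.H98.TC Pool.Agent.H64.Pent Pool.Agent.H98.Code
open Pool.Agent.H57.Code

/-- the statement on rooted codes: a code without `{0, z}`-words in which every nonzero `z`-free word
which is `0` at `r` splits is the code of a tree -/
def RootedTree : Prop :=
  ∀ (X : Type) [Fintype X] [DecidableEq X] (B : Submodule (ZMod 2) (X → K)) (r : X),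
    IsCode B → NoZ B → CritAt B r → (graph B).IsTree

theorem main_of (hT : RootedTree) {V : Type*} [Finite V] (G : SimpleGraph V)
    (M C₁ C₂ : G.Subgraph) (h : IsPermutationGraph G M C₁ C₂) (hind : Indecomposable G (wt M)) :
    IsPetersenPair G M := by
  refine petersen_of_codes ?_ G M C₁ C₂ h hind
  intro n _ L h5 _ hL hz1 hz hC
  have hc : Fintype.card (ZMod n) = n := ZMod.card n
  have h2 := Pool.Agent.H16.CA.card_five hL hz1 hz hC (by rw [hc]; omega) hT
  rwa [hc] at h2

end Pool.Agent.H62.Ind
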