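import Mathlib
import Pool.Agent.H62.Ind.Main
import Pool.Agent.H62.Ind.P3
import Pool.Agent.H6.P4.Side
import Pool.Agent.H26.P3.End
import Pool.Agent.H17.P3.Glue
import Pool.Agent.H97.Sum.Crit

set_option autoImplicit false

/-!
Critical contra pairs on permutation graphs are `(P₁₀, w₁₀)` or sums of two contra pairs
(MP_a46c6f_co).
-/

namespace Pool.Agent.H62.Ind

open SimpleGraph Pool.Agent.H5.Goddyn Pool.Agent.H98.TC Pool.Agent.H64.Pent Pool.Agent.H98.Code
open Pool.Agent.H57.Code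

theorem rootedTree : RootedTree :=
  Pool.Agent.H17.P3.hT_of p3 Pool.Agent.H6.P4.code_side Pool.Agent.H26.P3.tree_end

/-- an indecomposable pair on a permutation graph is the Petersen pair -/
theorem petersen_of_indecomposable {V : Type*} [Finite V] (G : SimpleGraph V)
    (M C₁ C₂ : G.Subgraph) (h : IsPermutationGraph G M C₁ C₂) (hind : Indecomposable G (wt M)) :
    IsPetersenPair G M := main_of rootedTree G M C₁ C₂ h hind

theorem main {V : Type*} [Finite V] (G : SimpleGraph V) (M C₁ C₂ : G.Subgraph)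
    (h : IsPermutationGraph G M C₁ C₂) (hcrit : IsCriticalContraPair G (wt M)) :
    IsPetersenPair G M ∨ ∃ w₁ w₂ : Sym2 V → ℕ, (∀ e ∈ G.edgeSet, wt M e = w₁ e + w₂ e) ∧
      Eulerian (support G w₁) w₁ ∧ Bridgeless (support G w₁) ∧ ¬ HasFaithfulCircuitCover G w₁ ∧
      Eulerian (support G w₂) w₂ ∧ Bridgeless (support G w₂) ∧ ¬ HasFaithfulCircuitCover G w₂ := by
  by_cases hi : Indecomposable G (wt M)
  · exact Or.inl (petersen_of_indecomposable G M C₁ C₂ h hi)
  · unfold Indecomposable at hi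
    rw [not_not] at hi
    obtain ⟨w₁, w₂, hs, n₁, n₂, e₁, b₁, e₂, b₂⟩ := hi
    obtain ⟨f₁, f₂⟩ := Pool.Agent.H97.Sum.not_cover_of_sum G _ hcrit.2 w₁ w₂ hs n₁ n₂ e₁ b₁ e₂ b₂
    exact Or.inr ⟨w₁, w₂, hs, e₁, b₁, f₁, e₂, b₂, f₂⟩

end Pool.Agent.H62.Ind
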